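import Pool.Agent.SGL.StmtsG

/-!
# Squad SGL (MP_41797f_co), row GFA: the faces are positive
-/

noncomputable section

namespace Pool.Agent.SGL.H4

open Pool.Agent.SGE Pool.Agent.SGP Pool.Agent.SGY Pool.Agent.SGD

/-- the height of the vertex with the index `i` -/
private def yy (N : ℕ) (σ : ℕ → ℕ) (i : ℕ) : ℝ := bb N ^ σ i + ((N : ℝ) + 3) ^ i

private theorem M1 (N : ℕ) : (1 : ℝ) ≤ (N : ℝ) + 3 := by
  have : (0 : ℝ) ≤ N := Nat.cast_nonneg N
  linarith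

private theorem hpos (N : ℕ) : (1 : ℝ) ≤ hh N := one_le_pow₀ (M1 N)

private theorem bge (N : ℕ) : ((N : ℝ) + 3) * hh N + 2 * ((N : ℝ) + 3) = bb N := by
  unfold bb; ring

private theorem b1 (N : ℕ) : (1 : ℝ) ≤ bb N := by
  rw [← bge]
  have h1 := M1 N
  have h2 := hpos N
  nlinarith

private theorem mp1 (N i : ℕ) : (1 : ℝ) ≤ ((N : ℝ) + 3) ^ i := one_le_pow₀ (M1 N)

private theorem mph {N i : ℕ} (h : i ≤ N + 1) : ((N : ℝ) + 3) ^ i ≤ hh N :=
  pow_le_pow_right₀ (M1 N) h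

private theorem mpl {N i j : ℕ} (h : i < j) :
    ((N : ℝ) + 3) * ((N : ℝ) + 3) ^ i ≤ ((N : ℝ) + 3) ^ j := by
  rw [← pow_succ']
  exact pow_le_pow_right₀ (M1 N) h

private theorem ylt {N : ℕ} {σ : ℕ → ℕ} (hσ : Monotone σ) {i j : ℕ} (h : i < j) :
    yy N σ i + 1 ≤ yy N σ j := by
  unfold yy
  have h1 : bb N ^ σ i ≤ bb N ^ σ j := pow_le_pow_right₀ (b1 N) (hσ h.le)
  have h2 := mpl (N := N) h
  have h3 := mp1 N i
  have h4 : (0 : ℝ) ≤ N := Nat.cast_nonneg N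
  nlinarith

private theorem core (N : ℕ) {σ : ℕ → ℕ} (hσ : Monotone σ) {kx ky kz rx ry rz : ℕ}
    (hx : kx ≤ N + 1) (hy : ky ≤ N + 1) (_hz : kz ≤ N + 1)
    (hxz : kx < kz) (hyz : ky < kz) (hr : rx < ry) (_h1 : rx ≤ N + 1) (_h2 : ry ≤ N + 1)
    (_h3 : rz ≤ N + 1) (ha : σ ky < σ kx → σ kx = σ kz → rx < rz)
    (hb : σ kx < σ ky → σ ky = σ kz → rz < ry) :
    0 < ((ry : ℝ) - rx) * (yy N σ kz - yy N σ kx) -
      (yy N σ ky - yy N σ kx) * ((rz : ℝ) - rx) := by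
  have hN : (0 : ℝ) ≤ N := Nat.cast_nonneg N
  have c1 : (rx : ℝ) ≤ N + 1 := by exact_mod_cast _h1
  have c2 : (ry : ℝ) ≤ N + 1 := by exact_mod_cast _h2
  have c3 : (rz : ℝ) ≤ N + 1 := by exact_mod_cast _h3
  have d1 : (0 : ℝ) ≤ rx := Nat.cast_nonneg _
  have d2 : (0 : ℝ) ≤ ry := Nat.cast_nonneg _
  have d3 : (0 : ℝ) ≤ rz := Nat.cast_nonneg _
  have c4 : (rx : ℝ) + 1 ≤ ry := by exact_mod_cast hr
  have yxz := ylt (N := N) hσ hxz
  have yyz := ylt (N := N) hσ hyz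
  rcases (hσ hxz.le).lt_or_eq with sx | sx <;> rcases (hσ hyz.le).lt_or_eq with sy | sy
  · -- both below
    obtain ⟨l, hl⟩ : ∃ l, σ kz = l + 1 := ⟨σ kz - 1, by omega⟩
    have e1 : bb N ^ σ kz = bb N * bb N ^ l := by rw [hl, pow_succ']
    have e2 : bb N ^ σ kx ≤ bb N ^ l := pow_le_pow_right₀ (b1 N) (by omega)
    have e3 : bb N ^ σ ky ≤ bb N ^ l := pow_le_pow_right₀ (b1 N) (by omega)
    have e4 : (1 : ℝ) ≤ bb N ^ l := one_le_pow₀ (b1 N)
    have e5 : (1 : ℝ) ≤ bb N ^ σ kx := one_le_pow₀ (b1 N)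
    have e6 : (1 : ℝ) ≤ bb N ^ σ ky := one_le_pow₀ (b1 N)
    have f1 := mph hx
    have f2 := mph hy
    have f3 := mp1 N kx
    have f4 := mp1 N ky
    have f5 := mp1 N kz
    have g := bge N
    have hH := hpos N
    generalize bb N ^ l = L at *
    have y1 : yy N σ kx ≤ L + hh N := by unfold yy; linarith
    have y2 : yy N σ ky ≤ L + hh N := by unfold yy; linarith
    have y3 : bb N * L ≤ yy N σ kz := by unfold yy; rw [e1]; linarith
    have y4 : 0 ≤ yy N σ kx := by unfold yy; linarith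
    have y5 : 0 ≤ yy N σ ky := by unfold yy; linarith
    generalize yy N σ kx = A at *
    generalize yy N σ ky = C at *
    generalize yy N σ kz = D at *
    have t1 : D - A ≤ ((ry : ℝ) - rx) * (D - A) := by nlinarith
    have t2 : (C - A) * ((rz : ℝ) - rx) ≤ (L + hh N) * ((N : ℝ) + 1) := by
      have u1 : |C - A| ≤ L + hh N := abs_le.2 ⟨by linarith, by linarith⟩
      have u2 : |(rz : ℝ) - rx| ≤ (N : ℝ) + 1 := abs_le.2 ⟨by linarith, by linarith⟩
      calc (C - A) * ((rz : ℝ) - rx) ≤ |(C - A) * ((rz : ℝ) - rx)| := le_abs_self _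
        _ = |C - A| * |(rz : ℝ) - rx| := abs_mul _ _
        _ ≤ _ := mul_le_mul u1 u2 (abs_nonneg _) (by linarith)
    have t3 : 0 < bb N - ((N : ℝ) + 2) - hh N * ((N : ℝ) + 2) := by
      rw [← g]; nlinarith
    have t4 : bb N - ((N : ℝ) + 2) ≤ L * (bb N - ((N : ℝ) + 2)) := by
      have : 0 ≤ bb N - ((N : ℝ) + 2) := by nlinarith
      nlinarith
    nlinarith
  · -- 2d
    have hc := hb (by omega) sy
    have c5 : (rz : ℝ) < ry := by exact_mod_cast hc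
    have h6 : kx < ky := by
      by_contra h
      have := hσ (not_lt.1 h)
      omega
    have yxy := ylt (N := N) hσ h6
    have e : ((ry : ℝ) - rx) * (yy N σ kz - yy N σ kx) -
      (yy N σ ky - yy N σ kx) * ((rz : ℝ) - rx) =
      ((ry : ℝ) - rz) * (yy N σ ky - yy N σ kx) +
      (yy N σ kz - yy N σ ky) * ((ry : ℝ) - rx) := by ring
    rw [e]
    have t1 : 0 < ((ry : ℝ) - rz) * (yy N σ ky - yy N σ kx) :=
      mul_pos (by linarith) (by linarith)
    have t2 : 0 < (yy N σ kz - yy N σ ky) * ((ry : ℝ) - rx) :=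
      mul_pos (by linarith) (by linarith)
    linarith
  · -- 2c
    have hc := ha (by omega) sx
    have c5 : (rx : ℝ) < rz := by exact_mod_cast hc
    have h6 : ky < kx := by
      by_contra h
      have := hσ (not_lt.1 h)
      omega
    have yxy := ylt (N := N) hσ h6
    have t1 : 0 < (yy N σ kx - yy N σ ky) * ((rz : ℝ) - rx) :=
      mul_pos (by linarith) (by linarith)
    have t2 : 0 < ((ry : ℝ) - rx) * (yy N σ kz - yy N σ kx) :=
      mul_pos (by linarith) (by linarith)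
    linarith
  · -- one slice
    have e1 : yy N σ kz - yy N σ kx = ((N : ℝ) + 3) ^ kz - ((N : ℝ) + 3) ^ kx := by
      unfold yy; rw [sx]; ring
    have e2 : yy N σ ky - yy N σ kx = ((N : ℝ) + 3) ^ ky - ((N : ℝ) + 3) ^ kx := by
      unfold yy; rw [sx, sy]; ring
    rw [e1, e2]
    have f1 : ((N : ℝ) + 3) ^ kx ≤ ((N : ℝ) + 3) ^ (max kx ky) :=
      pow_le_pow_right₀ (M1 N) (le_max_left _ _)
    have f2 : ((N : ℝ) + 3) ^ ky ≤ ((N : ℝ) + 3) ^ (max kx ky) :=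
      pow_le_pow_right₀ (M1 N) (le_max_right _ _)
    have f3 := mpl (N := N) (max_lt hxz hyz)
    have f4 := mp1 N kx
    have f5 := mp1 N ky
    have f6 := mp1 N (max kx ky)
    generalize ((N : ℝ) + 3) ^ (max kx ky) = m at *
    generalize ((N : ℝ) + 3) ^ kx = A at *
    generalize ((N : ℝ) + 3) ^ ky = C at *
    generalize ((N : ℝ) + 3) ^ kz = D at *
    have t0 : 0 ≤ D - A := by nlinarith
    have t1 : D - A ≤ ((ry : ℝ) - rx) * (D - A) := by nlinarith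
    have t2 : (C - A) * ((rz : ℝ) - rx) ≤ m * ((N : ℝ) + 1) := by
      have u1 : |C - A| ≤ m := abs_le.2 ⟨by linarith, by linarith⟩
      have u2 : |(rz : ℝ) - rx| ≤ (N : ℝ) + 1 := abs_le.2 ⟨by linarith, by linarith⟩
      calc (C - A) * ((rz : ℝ) - rx) ≤ |(C - A) * ((rz : ℝ) - rx)| := le_abs_self _
        _ = |C - A| * |(rz : ℝ) - rx| := abs_mul _ _
        _ ≤ _ := mul_le_mul u1 u2 (abs_nonneg _) (by linarith)
    nlinarith

private theorem fac {V : Type} {a : V} {N : ℕ} {σ : ℕ → ℕ} {k ρ : V → ℕ} :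
    co a N σ k ρ a = (ww N σ, 0) := by
  unfold co; rw [if_pos rfl]

private theorem fno {V : Type} {a v : V} (h : v ≠ a) {N : ℕ} {σ : ℕ → ℕ} {k ρ : V → ℕ} :
    co a N σ k ρ v = ((ρ v : ℝ), yy N σ (k v)) := by
  unfold co; rw [if_neg h]; rfl

theorem gfa : GfaStmt := by
  intro V _ a b c E F N σ k ρ hσ nt ly
  -- faces with the last vertex at the end
  have A1 : ∀ x y z, F x y z → x ≠ a → y ≠ a → z ≠ a → k x < k z → k y < k z →
      0 < o (co a N σ k ρ x) (co a N σ k ρ y) (co a N σ k ρ z) := by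
    intro x y z h hx hy hz hxz hyz
    have ex := nt.fe _ _ _ h
    have ey := nt.fe _ _ _ (nt.rot _ _ _ h)
    have ez := nt.fe _ _ _ (nt.rot _ _ _ (nt.rot _ _ _ h))
    obtain ⟨q1, q2, q3⟩ := ly.fa x y z h hx hy hz hxz hyz
    have := core N hσ (ly.kl x ⟨y, ex⟩ hx) (ly.kl y ⟨z, ey⟩ hy) (ly.kl z ⟨x, ez⟩ hz) hxz hyz q1
      (ly.rl x ⟨y, ex⟩ hx) (ly.rl y ⟨z, ey⟩ hy) (ly.rl z ⟨x, ez⟩ hz) q2 q3
    rw [fno hx, fno hy, fno hz]
    exact this
  -- faces with `a` in the middle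
  have A2 : ∀ x z, F x a z → 0 < o (co a N σ k ρ x) (co a N σ k ρ a) (co a N σ k ρ z) := by
    intro x z h
    have ex := nt.fe _ _ _ h
    have ey := nt.fe _ _ _ (nt.rot _ _ _ h)
    have ez := nt.fe _ _ _ (nt.rot _ _ _ (nt.rot _ _ _ h))
    have hx : x ≠ a := by rintro rfl; exact nt.irr _ ex
    have hz : z ≠ a := by rintro rfl; exact nt.irr _ ey
    have hk := ly.fb x z h
    rw [fno hx, fac, fno hz]
    have k1 := ly.kl x ⟨a, ex⟩ hx
    have r1 := ly.rl x ⟨a, ex⟩ hx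
    have r2 := ly.rl z ⟨x, ez⟩ hz
    have hN : (0 : ℝ) ≤ N := Nat.cast_nonneg N
    have c1 : (ρ x : ℝ) ≤ N + 1 := by exact_mod_cast r1
    have c2 : (ρ z : ℝ) ≤ N + 1 := by exact_mod_cast r2
    have d1 : (0 : ℝ) ≤ ρ x := Nat.cast_nonneg _
    have d2 : (0 : ℝ) ≤ ρ z := Nat.cast_nonneg _
    have y1 := ylt (N := N) hσ hk
    have y2 : yy N σ (k x) ≤ bb N ^ σ (N + 1) + hh N :=
      add_le_add (pow_le_pow_right₀ (b1 N) (hσ k1)) (mph k1)
    have y3 : 0 ≤ yy N σ (k x) := by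
      have e5 : (1 : ℝ) ≤ bb N ^ σ (k x) := one_le_pow₀ (b1 N)
      have f3 := mp1 N (k x)
      unfold yy; linarith
    have e7 : (1 : ℝ) ≤ bb N ^ σ (N + 1) := one_le_pow₀ (b1 N)
    have hH := hpos N
    unfold o ww
    simp only
    generalize bb N ^ σ (N + 1) + hh N = Q at *
    generalize yy N σ (k x) = A at *
    generalize yy N σ (k z) = C at *
    have t0 : 0 ≤ ((N : ℝ) + 2) * (Q + 1) - ρ x := by nlinarith
    have t1 : ((N : ℝ) + 2) * (Q + 1) - ρ x ≤ (((N : ℝ) + 2) * (Q + 1) - ρ x) * (C - A) := by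
      nlinarith
    have t2 : -(Q * ((N : ℝ) + 1)) ≤ A * ((ρ z : ℝ) - ρ x) := by
      have u2 : -((N : ℝ) + 1) ≤ (ρ z : ℝ) - ρ x := by linarith
      nlinarith
    nlinarith
  intro x y z h
  have h' := nt.rot _ _ _ h
  have h'' := nt.rot _ _ _ h'
  have ex := nt.fe _ _ _ h
  have ey := nt.fe _ _ _ h'
  have ez := nt.fe _ _ _ h''
  by_cases hx : x = a
  · subst hx
    rw [o_rot, o_rot]
    exact A2 z y h''
  by_cases hy : y = a
  · subst hy
    exact A2 x z h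
  by_cases hz : z = a
  · subst hz
    rw [o_rot]
    exact A2 y x h'
  have nxy : k x ≠ k y := fun e => by
    have := ly.ki x y ⟨y, ex⟩ ⟨z, ey⟩ hx hy e
    subst this; exact nt.irr _ ex
  have nyz : k y ≠ k z := fun e => by
    have := ly.ki y z ⟨z, ey⟩ ⟨x, ez⟩ hy hz e
    subst this; exact nt.irr _ ey
  have nzx : k z ≠ k x := fun e => by
    have := ly.ki z x ⟨x, ez⟩ ⟨y, ex⟩ hz hx e
    subst this; exact nt.irr _ ez
  rcases lt_or_gt_of_ne nxy with g1 | g1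
  · rcases lt_or_gt_of_ne nyz with g2 | g2
    · exact A1 x y z h hx hy hz (g1.trans g2) g2
    · rw [o_rot, o_rot]
      exact A1 z x y h'' hz hx hy g2 g1
  · rcases lt_or_gt_of_ne nzx with g2 | g2
    · rw [o_rot]
      exact A1 y z x h' hy hz hx g1 g2
    · exact A1 x y z h hx hy hz g2 (g1.trans g2)

end Pool.Agent.SGL.H4
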